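import Pool.Agent.N993.WU.Defs

set_option autoImplicit false

/-!
Project WU (helper993), part DEG: vertices with at most one `x`-dart (helper971, adapted from the
part DEG of project WT by helper80).
-/

namespace Pool.Agent.N971.WU.DEG

open Pool.Agent.N993.WU
open Pool.Agent.N993.WT (flip)

theorem flip_flip {X : Type} (y : X × Bool) :
    Pool.Agent.N993.WT.flip (Pool.Agent.N993.WT.flip y) = y := by
  simp [Pool.Agent.N993.WT.flip]

theorem ow_red {V : Type} {w : ℕ → V × Bool} {l : ℕ}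
    (hw : ∀ i, i + 1 < l → w (i + 1) ≠ Pool.Agent.N993.WT.flip (w i)) (τ : Bool) (i : ℕ)
    (hi : i + 1 < l) : ow w l τ (i + 1) ≠ Pool.Agent.N993.WT.flip (ow w l τ i) := by
  cases τ
  · intro h
    unfold ow at h
    rw [if_neg (by decide), if_neg (by decide), flip_flip] at h
    have e : l - 1 - i = (l - 1 - (i + 1)) + 1 := by omega
    rw [e] at h
    exact hw (l - 1 - (i + 1)) (by omega) h.symm
  · intro h
    unfold ow at h
    rw [if_pos rfl, if_pos rfl] at h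
    exact hw i hi h

theorem ow_cyc {V : Type} {w : ℕ → V × Bool} {l : ℕ}
    (hw : w 0 ≠ Pool.Agent.N993.WT.flip (w (l - 1))) (τ : Bool) :
    ow w l τ (l - 1) ≠ Pool.Agent.N993.WT.flip (ow w l τ 0) := by
  cases τ
  · intro h
    unfold ow at h
    rw [if_neg (by decide), if_neg (by decide), flip_flip, Nat.sub_self, Nat.sub_zero] at h
    apply hw
    rw [← h, flip_flip]
  · intro h
    unfold ow at h
    rw [if_pos rfl, if_pos rfl] at h
    apply hw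
    rw [h, flip_flip]

variable {V J S : Type} {A : Dat V J S} (N : ND A)

theorem sg_apply (d : N.D) : N.σ d = N.opp (N.nxt.symm d) := rfl

theorem ty_prev (d : N.D) : A.nx (N.ty (N.nxt.symm d)) = N.ty d := by
  rw [← N.ty_nxt, Equiv.apply_symm_apply]

theorem prev_uu_succ {d : N.D} {j : J} {τ : Bool} {i : ℕ} (h : N.ty d = .uu j τ (i + 1)) :
    N.ty (N.nxt.symm d) = .uu j τ i := by
  have h1 := ty_prev N d
  rw [h] at h1
  rcases hp : N.ty (N.nxt.symm d) with ⟨j', τ', i'⟩ | ⟨j', τ', k'⟩ | ⟨j', τ', k', i'⟩ |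
    ⟨j', τ', k'⟩ | ⟨s', τ'⟩ | ⟨s', τ', i'⟩ <;> rw [hp] at h1 <;> simp only [Dat.nx] at h1
  · split_ifs at h1
    injection h1 with e1 e2 e3
    subst e1; subst e2
    rw [Nat.succ.inj e3]
  · cases h1
  · split_ifs at h1
  · split_ifs at h1
    injection h1 with e1 e2 e3
    omega
  · cases h1
  · split_ifs at h1

theorem prev_uu_zero {d : N.D} {j : J} {τ : Bool} (h : N.ty d = .uu j τ 0) :
    N.ty (N.nxt.symm d) = .dn j τ (A.c j - 1) := by
  have h1 := ty_prev N d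
  have hv := N.valid (N.nxt.symm d)
  rw [h] at h1
  rcases hp : N.ty (N.nxt.symm d) with ⟨j', τ', i'⟩ | ⟨j', τ', k'⟩ | ⟨j', τ', k', i'⟩ |
    ⟨j', τ', k'⟩ | ⟨s', τ'⟩ | ⟨s', τ', i'⟩ <;> rw [hp] at h1 hv <;> simp only [Dat.nx] at h1
  · split_ifs at h1
    injection h1 with e1 e2 e3
    omega
  · cases h1
  · split_ifs at h1
  · split_ifs at h1 with hk
    injection h1 with e1 e2
    subst e1; subst e2
    simp only [Dat.Valid] at hv
    have : k' = A.c j' - 1 := by omega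
    rw [this]
  · cases h1
  · split_ifs at h1

theorem prev_vv_succ {d : N.D} {j : J} {τ : Bool} {k i : ℕ} (h : N.ty d = .vv j τ k (i + 1)) :
    N.ty (N.nxt.symm d) = .vv j τ k i := by
  have h1 := ty_prev N d
  rw [h] at h1
  rcases hp : N.ty (N.nxt.symm d) with ⟨j', τ', i'⟩ | ⟨j', τ', k'⟩ | ⟨j', τ', k', i'⟩ |
    ⟨j', τ', k'⟩ | ⟨s', τ'⟩ | ⟨s', τ', i'⟩ <;> rw [hp] at h1 <;> simp only [Dat.nx] at h1
  · split_ifs at h1
  · injection h1 with e1 e2 e3 e4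
    omega
  · split_ifs at h1
    injection h1 with e1 e2 e3 e4
    subst e1; subst e2; subst e3
    rw [Nat.succ.inj e4]
  · split_ifs at h1
  · cases h1
  · split_ifs at h1

theorem prev_vv_zero {d : N.D} {j : J} {τ : Bool} {k : ℕ} (h : N.ty d = .vv j τ k 0) :
    N.ty (N.nxt.symm d) = .up j τ k := by
  have h1 := ty_prev N d
  rw [h] at h1
  rcases hp : N.ty (N.nxt.symm d) with ⟨j', τ', i'⟩ | ⟨j', τ', k'⟩ | ⟨j', τ', k', i'⟩ |
    ⟨j', τ', k'⟩ | ⟨s', τ'⟩ | ⟨s', τ', i'⟩ <;> rw [hp] at h1 <;> simp only [Dat.nx] at h1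
  · split_ifs at h1
  · injection h1 with e1 e2 e3 e4
    subst e1; subst e2; subst e3
    rfl
  · split_ifs at h1
    injection h1 with e1 e2 e3 e4
    omega
  · split_ifs at h1
  · cases h1
  · split_ifs at h1

theorem prev_dn {d : N.D} {j : J} {τ : Bool} {k : ℕ} (h : N.ty d = .dn j τ k) :
    N.ty (N.nxt.symm d) = .vv j τ k (A.lv (A.kap j τ k) - 1) := by
  have h1 := ty_prev N d
  have hv := N.valid (N.nxt.symm d)
  rw [h] at h1
  rcases hp : N.ty (N.nxt.symm d) with ⟨j', τ', i'⟩ | ⟨j', τ', k'⟩ | ⟨j', τ', k', i'⟩ |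
    ⟨j', τ', k'⟩ | ⟨s', τ'⟩ | ⟨s', τ', i'⟩ <;> rw [hp] at h1 hv <;> simp only [Dat.nx] at h1
  · split_ifs at h1
  · cases h1
  · split_ifs at h1 with hk
    injection h1 with e1 e2 e3
    subst e1; subst e2; subst e3
    simp only [Dat.Valid] at hv
    have : i' = A.lv (A.kap j' τ' k') - 1 := by omega
    rw [this]
  · split_ifs at h1
  · cases h1
  · split_ifs at h1

theorem prev_lt_succ {d : N.D} {s : S} {τ : Bool} {i : ℕ} (h : N.ty d = .lt s τ (i + 1)) :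
    N.ty (N.nxt.symm d) = .lt s τ i := by
  have h1 := ty_prev N d
  rw [h] at h1
  rcases hp : N.ty (N.nxt.symm d) with ⟨j', τ', i'⟩ | ⟨j', τ', k'⟩ | ⟨j', τ', k', i'⟩ |
    ⟨j', τ', k'⟩ | ⟨s', τ'⟩ | ⟨s', τ', i'⟩ <;> rw [hp] at h1 <;> simp only [Dat.nx] at h1
  · split_ifs at h1
  · cases h1
  · split_ifs at h1
  · split_ifs at h1
  · injection h1 with e1 e2 e3
    omega
  · split_ifs at h1
    injection h1 with e1 e2 e3
    subst e1; subst e2
    rw [Nat.succ.inj e3]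

theorem prev_lt_zero {d : N.D} {s : S} {τ : Bool} (h : N.ty d = .lt s τ 0) :
    N.ty (N.nxt.symm d) = .st s τ := by
  have h1 := ty_prev N d
  rw [h] at h1
  rcases hp : N.ty (N.nxt.symm d) with ⟨j', τ', i'⟩ | ⟨j', τ', k'⟩ | ⟨j', τ', k', i'⟩ |
    ⟨j', τ', k'⟩ | ⟨s', τ'⟩ | ⟨s', τ', i'⟩ <;> rw [hp] at h1 <;> simp only [Dat.nx] at h1
  · split_ifs at h1
  · cases h1
  · split_ifs at h1
  · split_ifs at h1
  · injection h1 with e1 e2 e3
    subst e1; subst e2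
    rfl
  · split_ifs at h1
    injection h1 with e1 e2 e3
    omega

theorem prev_st {d : N.D} {s : S} {τ : Bool} (h : N.ty d = .st s τ) :
    ∃ i, N.ty (N.nxt.symm d) = .lt s τ i := by
  have h1 := ty_prev N d
  rw [h] at h1
  rcases hp : N.ty (N.nxt.symm d) with ⟨j', τ', i'⟩ | ⟨j', τ', k'⟩ | ⟨j', τ', k', i'⟩ |
    ⟨j', τ', k'⟩ | ⟨s', τ'⟩ | ⟨s', τ', i'⟩ <;> rw [hp] at h1 <;> simp only [Dat.nx] at h1
  · split_ifs at h1
  · cases h1
  · split_ifs at h1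
  · split_ifs at h1
  · cases h1
  · split_ifs at h1
    injection h1 with e1 e2
    subst e1; subst e2
    exact ⟨i', rfl⟩

theorem isX_iff (t : Side J S) : IsX t ↔ ∃ x, (A.letter t).1 = Sum.inl x := by
  rcases t with ⟨j', τ', i'⟩ | ⟨j', τ', k'⟩ | ⟨j', τ', k', i'⟩ |
    ⟨j', τ', k'⟩ | ⟨s', τ'⟩ | ⟨s', τ', i'⟩ <;> simp [IsX, Dat.letter]

theorem isX_opp (d : N.D) (h : IsX (N.ty d)) : IsX (N.ty (N.opp d)) := by
  rw [isX_iff (A := A)] at h ⊢
  rw [N.letter_opp]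
  exact h

theorem kap_eq (hA : A.Good) {j j' : J} {τ τ' : Bool} {k k' : ℕ} (hk : k < A.c j)
    (hk' : k' < A.c j') (h : A.kap j τ k = A.kap j' τ' k') :
    j' = j ∧ ((τ' = τ ∧ k' = k) ∨ (τ' = !τ ∧ k' = A.c j - 1 - k)) := by
  have h1 : (if τ then k else A.c j - 1 - k) < A.c j := by split_ifs <;> omega
  have h2 : (if τ' then k' else A.c j' - 1 - k') < A.c j' := by split_ifs <;> omega
  obtain ⟨e1, e2⟩ := hA.st_inj _ _ _ _ h1 h2 h
  subst e1
  refine ⟨rfl, ?_⟩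
  cases τ <;> cases τ' <;> simp at e2 ⊢ <;> omega

theorem K1 (hA : A.Good) {d : N.D} {j : J} {τ : Bool} {k : ℕ}
    (h : N.ty (N.nxt.symm d) = .dn j τ k) :
    N.ty (N.σ d) = .up j τ k ∨ IsSt (N.ty (N.σ d)) := by
  rw [sg_apply]
  have h1 := N.letter_opp (N.nxt.symm d)
  have hr := N.red (N.nxt.symm d)
  have hv := N.valid (N.nxt.symm d)
  have hv' := N.valid (N.opp (N.nxt.symm d))
  rw [h] at h1 hr hv
  simp only [Dat.letter, Pool.Agent.N993.WT.flip, Dat.mirror, Dat.Valid] at h1 hr hv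
  rcases hp : N.ty (N.opp (N.nxt.symm d)) with ⟨j', τ', i'⟩ | ⟨j', τ', k'⟩ | ⟨j', τ', k', i'⟩ |
    ⟨j', τ', k'⟩ | ⟨s', τ'⟩ | ⟨s', τ', i'⟩ <;> rw [hp] at h1 hr hv' <;>
    simp [Dat.letter, Dat.Valid] at h1 hv'
  · obtain ⟨e1, e2⟩ := kap_eq hA hv hv' h1.symm
    subst e1
    rcases e2 with ⟨e2, e3⟩ | ⟨e2, e3⟩
    · subst e2; subst e3
      left; rfl
    · subst e2; subst e3
      exact absurd rfl hr
  · right
    trivial

theorem K2 (hA : A.Good) {d : N.D} {j : J} {τ : Bool} {k : ℕ}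
    (h : N.ty (N.nxt.symm d) = .up j τ k) :
    N.ty (N.σ d) = .dn j τ k ∨ IsSt (N.ty (N.σ d)) := by
  rw [sg_apply]
  have h1 := N.letter_opp (N.nxt.symm d)
  have hr := N.red (N.nxt.symm d)
  have hv := N.valid (N.nxt.symm d)
  have hv' := N.valid (N.opp (N.nxt.symm d))
  rw [h] at h1 hr hv
  simp only [Dat.letter, Pool.Agent.N993.WT.flip, Dat.mirror, Dat.Valid] at h1 hr hv
  rcases hp : N.ty (N.opp (N.nxt.symm d)) with ⟨j', τ', i'⟩ | ⟨j', τ', k'⟩ | ⟨j', τ', k', i'⟩ |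
    ⟨j', τ', k'⟩ | ⟨s', τ'⟩ | ⟨s', τ', i'⟩ <;> rw [hp] at h1 hr hv' <;>
    simp [Dat.letter, Dat.Valid] at h1 hv'
  · obtain ⟨e1, e2⟩ := kap_eq hA hv hv' h1.symm
    subst e1
    rcases e2 with ⟨e2, e3⟩ | ⟨e2, e3⟩
    · subst e2; subst e3
      left; rfl
    · subst e2; subst e3
      exact absurd rfl hr
  · right
    trivial

theorem isX_sg (d : N.D) (h : IsX (N.ty (N.nxt.symm d))) : IsX (N.ty (N.σ d)) := by
  rw [sg_apply]
  exact isX_opp N _ h

theorem third_lt (hA : A.Good) (d : N.D) (s : S) (τ : Bool) (i : ℕ)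
    (h : N.ty d = .lt s τ (i + 1)) : N.σ d ≠ d ∧ IsX (N.ty (N.σ d)) := by
  have hp := prev_lt_succ N h
  refine ⟨?_, isX_sg N d (by rw [hp]; trivial)⟩
  intro he
  rw [sg_apply] at he
  have h1 := N.letter_opp (N.nxt.symm d)
  rw [he, hp, h] at h1
  have hv := N.valid d
  rw [h] at hv
  simp only [Dat.Valid] at hv
  simp only [Dat.letter, Pool.Agent.N993.WT.flip, Prod.mk.injEq, Sum.inl.injEq] at h1
  have h2 : A.wd s τ (i + 1) = Pool.Agent.N993.WT.flip (A.wd s τ i) := Prod.ext h1.1 h1.2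
  exact ow_red (hA.red s) τ i hv h2

theorem third_uu (hA : A.Good) (d : N.D) (j : J) (τ : Bool) (i : ℕ)
    (h : N.ty d = .uu j τ (i + 1)) : N.σ d ≠ d ∧ IsX (N.ty (N.σ d)) := by
  have hp := prev_uu_succ N h
  refine ⟨?_, isX_sg N d (by rw [hp]; trivial)⟩
  intro he
  rw [sg_apply] at he
  have h1 := N.letter_opp (N.nxt.symm d)
  rw [he, hp, h] at h1
  have hv := N.valid d
  rw [h] at hv
  simp only [Dat.Valid] at hv
  simp only [Dat.letter, Pool.Agent.N993.WT.flip, Prod.mk.injEq, Sum.inl.injEq] at h1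
  have h2 : ow (A.u j) (A.lu j) τ (i + 1) =
    Pool.Agent.N993.WT.flip (ow (A.u j) (A.lu j) τ i) := Prod.ext h1.1 h1.2
  exact ow_red (hA.redu j) τ i hv h2

theorem third_vv (hA : A.Good) (d : N.D) (j : J) (τ : Bool) (k i : ℕ)
    (h : N.ty d = .vv j τ k (i + 1)) : N.σ d ≠ d ∧ IsX (N.ty (N.σ d)) := by
  have hp := prev_vv_succ N h
  refine ⟨?_, isX_sg N d (by rw [hp]; trivial)⟩
  intro he
  rw [sg_apply] at he
  have h1 := N.letter_opp (N.nxt.symm d)
  rw [he, hp, h] at h1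
  have hv := N.valid d
  rw [h] at hv
  simp only [Dat.Valid] at hv
  simp only [Dat.letter, Pool.Agent.N993.WT.flip, Prod.mk.injEq, Sum.inl.injEq] at h1
  have h2 : ow (A.v (A.kap j τ k)) (A.lv (A.kap j τ k)) τ (i + 1) =
    Pool.Agent.N993.WT.flip (ow (A.v (A.kap j τ k)) (A.lv (A.kap j τ k)) τ i) :=
    Prod.ext h1.1 h1.2
  exact ow_red (hA.redv _) τ i hv.2 h2

theorem cyc_uu (hA : A.Good) (a : N.D) (j : J) (τ : Bool) (h : N.ty a = .uu j τ 0) :
    N.ty (N.opp a) ≠ .uu j τ (A.lu j - 1) := by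
  intro h0
  have h1 := N.letter_opp a
  rw [h0, h] at h1
  simp only [Dat.letter, Pool.Agent.N993.WT.flip, Prod.mk.injEq, Sum.inl.injEq] at h1
  have h2 : ow (A.u j) (A.lu j) τ (A.lu j - 1) =
    Pool.Agent.N993.WT.flip (ow (A.u j) (A.lu j) τ 0) := Prod.ext h1.1 h1.2
  exact ow_cyc (hA.cycu j) τ h2

theorem cyc_vv (hA : A.Good) (a : N.D) (j : J) (τ : Bool) (k : ℕ) (h : N.ty a = .vv j τ k 0) :
    N.ty (N.opp a) ≠ .vv j τ k (A.lv (A.kap j τ k) - 1) := by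
  intro h0
  have h1 := N.letter_opp a
  rw [h0, h] at h1
  simp only [Dat.letter, Pool.Agent.N993.WT.flip, Prod.mk.injEq, Sum.inl.injEq] at h1
  have h2 : ow (A.v (A.kap j τ k)) (A.lv (A.kap j τ k)) τ (A.lv (A.kap j τ k) - 1) =
    Pool.Agent.N993.WT.flip (ow (A.v (A.kap j τ k)) (A.lv (A.kap j τ k)) τ 0) :=
    Prod.ext h1.1 h1.2
  exact ow_cyc (hA.cycv _) τ h2

theorem t_deg (hD : S_DOWN) : S_DEG := by
  intro V J S A N hA
  refine ⟨?_, ?_, ?_⟩
  · intro d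
    rcases hd : N.ty d with ⟨j, τ, i⟩ | ⟨j, τ, k⟩ | ⟨j, τ, k, i⟩ | ⟨j, τ, k⟩ | ⟨s, τ⟩ | ⟨s, τ, i⟩
    · exact ⟨d, Equiv.Perm.SameCycle.refl _ _, by rw [hd]; trivial⟩
    · obtain ⟨r, -, hr, -⟩ := hD V J S A N hA j τ k d hd
      exact ⟨_, Equiv.Perm.SameCycle.refl _ _ |>.trans ⟨((r + 1 : ℕ) : ℤ), by rw [zpow_natCast]⟩, hr⟩
    · exact ⟨d, Equiv.Perm.SameCycle.refl _ _, by rw [hd]; trivial⟩
    · refine ⟨N.σ d, ⟨1, by rw [zpow_one]⟩, isX_sg N d ?_⟩
      rw [prev_dn N hd]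
      trivial
    · refine ⟨N.σ d, ⟨1, by rw [zpow_one]⟩, isX_sg N d ?_⟩
      obtain ⟨i, hi⟩ := prev_st N hd
      rw [hi]
      trivial
    · exact ⟨d, Equiv.Perm.SameCycle.refl _ _, by rw [hd]; trivial⟩
  · intro a ha huniq
    have hsg : N.σ.SameCycle a (N.σ a) := ⟨1, by rw [zpow_one]⟩
    rcases hd : N.ty a with ⟨j, τ, i⟩ | ⟨j, τ, k⟩ | ⟨j, τ, k, i⟩ | ⟨j, τ, k⟩ | ⟨s, τ⟩ | ⟨s, τ, i⟩
    · rcases i with _ | i
      · rcases K1 N hA (prev_uu_zero N hd) with h1 | h1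
        · obtain ⟨r, -, hr, h2⟩ := hD V J S A N hA _ _ _ _ h1
          have hs : ∀ n : ℕ, N.σ.SameCycle a ((N.σ ^ n) (N.σ a)) := fun n =>
            hsg.trans ⟨(n : ℤ), by rw [zpow_natCast]⟩
          have h3 := huniq _ (hs (r + 1)) hr
          rcases h2 with h2 | ⟨h2, -⟩
          · rw [h3] at h2
            exact absurd h2 (cyc_uu N hA a j τ hd)
          · exact ⟨_, h2, Or.inl (hs r)⟩
        · exact ⟨_, h1, Or.inl hsg⟩
      · obtain ⟨h1, h2⟩ := third_uu N hA a j τ i hd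
        exact absurd (huniq _ hsg h2) h1
    · rw [hd] at ha
      exact absurd ha (by simp [IsX])
    · rcases i with _ | i
      · rcases K2 N hA (prev_vv_zero N hd) with h1 | h1
        · have h2 := prev_dn N h1
          have h3 : IsX (N.ty (N.σ (N.σ a))) := isX_sg N _ (by rw [h2]; trivial)
          have h4 := huniq _ (hsg.trans ⟨1, by rw [zpow_one]⟩) h3
          rw [sg_apply] at h4
          have h5 := congrArg N.opp h4
          rw [N.opp_opp] at h5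
          rw [h5] at h2
          exact absurd h2 (cyc_vv N hA a j τ k hd)
        · exact ⟨_, h1, Or.inl hsg⟩
      · obtain ⟨h1, h2⟩ := third_vv N hA a j τ k i hd
        exact absurd (huniq _ hsg h2) h1
    · rw [hd] at ha
      exact absurd ha (by simp [IsX])
    · rw [hd] at ha
      exact absurd ha (by simp [IsX])
    · rcases i with _ | i
      · refine ⟨N.nxt.symm a, ?_, Or.inr ?_⟩
        · rw [prev_lt_zero N hd]
          trivial
        · rw [Equiv.apply_symm_apply]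
      · obtain ⟨h1, h2⟩ := third_lt N hA a s τ i hd
        exact absurd (huniq _ hsg h2) h1
  · intro d s τ i hd
    exact third_lt N hA d s τ i hd

end Pool.Agent.N971.WU.DEG
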